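import Pool.Agent.Helper41.OA.Defs

set_option autoImplicit false

/-!
# Project OA, piece OA-2: the row condition
-/

namespace Pool.Agent.Helper26.OA

open Finset
open Pool.Agent.Helper41.OA

private theorem uniq {d i j j' k k' a a' : ℕ} (ha : a < d) (ha' : a' < d) (hj : j ≤ i)
    (hj' : j' ≤ i) (h : i + j = NN d k + 2 ^ a) (h' : i + j' = NN d k' + 2 ^ a')
    (hk : k < k') : False := by
  have h1 : 2 ^ a ≤ DD d := Nat.pow_le_pow_right (by norm_num) (by omega)
  have h2 : 4 * NN d k ≤ NN d k' := by
    unfold NN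
    have : 4 ^ (k + 1) ≤ 4 ^ k' := Nat.pow_le_pow_right (by norm_num) hk
    calc 4 * (4 * DD d * 4 ^ k) = 4 * DD d * 4 ^ (k + 1) := by ring
      _ ≤ 4 * DD d * 4 ^ k' := Nat.mul_le_mul_left _ this
  have h3 : 4 * DD d ≤ NN d k := by
    unfold NN
    exact Nat.le_mul_of_pos_right _ (by positivity)
  have h4 : 0 < DD d := by unfold DD; positivity
  have h5 : 0 < 2 ^ a' := by positivity
  omega

private theorem ind_le (J i c : ℕ) (x : ℝ) (hx : 0 ≤ x) :
    ∑ j ∈ range J, (if i + j = c then x else 0) ≤ x := by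
  by_cases h : ∃ j ∈ range J, i + j = c
  · obtain ⟨j, hj, hc⟩ := h
    rw [Finset.sum_eq_single j]
    · rw [if_pos hc]
    · intro b _ hb
      rw [if_neg (by omega)]
    · intro h2
      exact absurd hj h2
  · push Not at h
    rw [Finset.sum_eq_zero fun j hj => if_neg (h j hj)]
    exact hx

private theorem sgn_norm (k a : ℕ) : ‖sgn k a‖ = 1 := by
  unfold sgn
  split_ifs <;> simp

theorem row_sq (d : ℕ) (hd : 0 < d) : RowSq (al d) := by
  intro i J
  have hd0 : (0 : ℝ) < d := by exact_mod_cast hd
  by_cases hex : ∃ k0 ∈ range (2 ^ d), ∃ a0 ∈ range d, ∃ j0, j0 ≤ i ∧ i + j0 = NN d k0 + 2 ^ a0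
  · obtain ⟨k0, hk0, a0, ha0, j0, hj0, h0⟩ := hex
    have hal : ∀ j, j ≤ i → al d (i + j) =
        ∑ a ∈ range d, if i + j = NN d k0 + 2 ^ a then sgn k0 a / (√(d : ℝ) : ℝ) else 0 := by
      intro j hj
      unfold al
      rw [Finset.sum_eq_single k0]
      · intro k _ hk
        refine Finset.sum_eq_zero fun a ha => if_neg fun h => ?_
        rcases lt_or_gt_of_ne hk with hlt | hlt
        · exact uniq (Finset.mem_range.1 ha) (Finset.mem_range.1 ha0) hj hj0 h h0 hlt
        · exact uniq (Finset.mem_range.1 ha0) (Finset.mem_range.1 ha) hj0 hj h0 h hlt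
      · intro h
        exact absurd hk0 h
    have hterm : ∀ j, ‖if j ≤ i then al d (i + j) else 0‖ ^ 2 ≤
        ∑ a ∈ range d, (if i + j = NN d k0 + 2 ^ a then 1 / (d : ℝ) else 0) := by
      intro j
      have hnn : 0 ≤ ∑ a ∈ range d, (if i + j = NN d k0 + 2 ^ a then 1 / (d : ℝ) else 0) :=
        Finset.sum_nonneg fun a _ => by split_ifs <;> positivity
      by_cases hj : j ≤ i
      · rw [if_pos hj, hal j hj]
        by_cases h1 : ∃ a ∈ range d, i + j = NN d k0 + 2 ^ a
        · obtain ⟨a1, ha1, h1⟩ := h1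
          have hu : ∀ a, a ≠ a1 → ¬ i + j = NN d k0 + 2 ^ a := by
            intro a ha h
            rw [h1] at h
            have h2 : 2 ^ a1 = 2 ^ a := by omega
            exact ha (Nat.pow_right_injective le_rfl h2.symm)
          rw [Finset.sum_eq_single a1 (fun a _ ha => if_neg (hu a ha))
            (fun h => absurd ha1 h), Finset.sum_eq_single a1 (fun a _ ha => if_neg (hu a ha))
            (fun h => absurd ha1 h), if_pos h1, if_pos h1, norm_div, sgn_norm,
            Complex.norm_real, Real.norm_of_nonneg (Real.sqrt_nonneg _), div_pow, one_pow,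
            Real.sq_sqrt hd0.le]
        · push Not at h1
          rw [Finset.sum_eq_zero fun a ha => if_neg (h1 a ha)]
          simpa using hnn
      · rw [if_neg hj]
        simpa using hnn
    calc ∑ j ∈ range J, ‖if j ≤ i then al d (i + j) else 0‖ ^ 2
        ≤ ∑ j ∈ range J, ∑ a ∈ range d,
            (if i + j = NN d k0 + 2 ^ a then 1 / (d : ℝ) else 0) :=
          Finset.sum_le_sum fun j _ => hterm j
      _ = ∑ a ∈ range d, ∑ j ∈ range J,
            (if i + j = NN d k0 + 2 ^ a then 1 / (d : ℝ) else 0) := Finset.sum_comm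
      _ ≤ ∑ a ∈ range d, 1 / (d : ℝ) :=
          Finset.sum_le_sum fun a _ => ind_le J i _ _ (by positivity)
      _ = 1 := by
          rw [Finset.sum_const, card_range, nsmul_eq_mul]
          field_simp
  · push Not at hex
    have h0 : ∀ j, (if j ≤ i then al d (i + j) else 0) = 0 := by
      intro j
      split_ifs with hj
      · unfold al
        refine Finset.sum_eq_zero fun k hk => Finset.sum_eq_zero fun a ha => if_neg ?_
        exact hex k hk a ha j hj
      · rfl
    simp only [h0]
    simp

end Pool.Agent.Helper26.OA
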